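import Pool.Agent.W845.HC.Base

set_option autoImplicit false
open scoped Classical
open scoped BigOperators

namespace Pool.Agent.W817.HC

open Pool.Agent.W845.PM Pool.Agent.W845.HC

noncomputable section

/-- every component of an acyclic graph has a vertex of degree at most one -/
theorem exists_end {V : Type} [Fintype V] (F : SimpleGraph V) (hF : F.IsAcyclic)
    (c : F.ConnectedComponent) : ∃ v : V, F.connectedComponentMk v = c ∧ dg F v ≤ 1 := by
  have ht := hF.isTree_connectedComponent c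
  have key : ∀ v : c, dg F v.1 ≤ c.toSimpleGraph.degree v := by
    intro v
    unfold dg
    rw [← SimpleGraph.card_neighborFinset_eq_degree]
    refine Finset.card_le_card_of_surjOn (fun w : c => w.1) ?_
    intro w hw
    simp only [Finset.coe_filter, Finset.mem_univ, true_and, Set.mem_ofPred_eq] at hw
    have hwc : w ∈ c.supp := by
      have hv : v.1 ∈ c.supp := v.2
      rw [SimpleGraph.ConnectedComponent.mem_supp_iff] at hv ⊢
      rw [← hv]
      exact (SimpleGraph.ConnectedComponent.sound hw.reachable).symm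
    refine ⟨⟨w, hwc⟩, ?_, rfl⟩
    simp only [SimpleGraph.coe_neighborFinset, SimpleGraph.mem_neighborSet]
    exact hw
  have hrep : ∀ v : c, F.connectedComponentMk v.1 = c := fun v => v.2
  rcases subsingleton_or_nontrivial c with hs | hn
  · obtain ⟨v, hv⟩ := c.exists_rep
    have hv' : v ∈ c.supp := hv
    refine ⟨v, hv, (key ⟨v, hv'⟩).trans ?_⟩
    have : c.toSimpleGraph.degree ⟨v, hv'⟩ = 0 := by
      rw [SimpleGraph.degree_eq_zero_iff_notMem_support]
      rintro ⟨w, hw⟩
      exact c.toSimpleGraph.ne_of_adj hw (hs.elim _ _)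
    omega
  · obtain ⟨v, hv⟩ := ht.exists_vert_degree_one_of_nontrivial
    exact ⟨v.1, hrep v, (key v).trans hv.le⟩

theorem reach_sup {V : Type} (F : SimpleGraph V) (x a b y : V) (ha : ¬ F.Reachable x a)
    (hb : ¬ F.Reachable x b) (h : (F ⊔ SimpleGraph.edge a b).Reachable x y) :
    F.Reachable x y := by
  obtain ⟨w⟩ := h
  have : ∀ (u v : V) (_ : (F ⊔ SimpleGraph.edge a b).Walk u v), F.Reachable x u →
      F.Reachable x v := by
    intro u v w
    induction w with
    | nil => exact id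
    | cons h w ih =>
      intro hu
      refine ih ?_
      rw [SimpleGraph.sup_adj, SimpleGraph.edge_adj] at h
      rcases h with h | ⟨⟨rfl, rfl⟩ | ⟨rfl, rfl⟩, _⟩
      · exact hu.trans h.reachable
      · exact absurd hu ha
      · exact absurd hu hb
  exact this _ _ w (SimpleGraph.Reachable.refl x)

/-- the vertices covered by a set of pairs -/
def cov {V : Type} (K : Finset (V × V)) (v : V) : Prop := ∃ e ∈ K, v = e.1 ∨ v = e.2

theorem add_matching {V : Type} [Fintype V] (F : SimpleGraph V) (hF : F.IsAcyclic)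
    (X : Finset V) (hX : ∀ x ∈ X, ∀ y ∈ X, x ≠ y → ¬ F.Reachable x y) (K : Finset (V × V)) :
    (∀ e ∈ K, e.1 ≠ e.2 ∧ e.1 ∈ X ∧ e.2 ∈ X) →
    (∀ e ∈ K, ∀ f ∈ K, e ≠ f → e.1 ≠ f.1 ∧ e.1 ≠ f.2 ∧ e.2 ≠ f.1 ∧ e.2 ≠ f.2) →
    ∃ F' : SimpleGraph V, (∀ u v, F'.Adj u v → F.Adj u v ∨ (u, v) ∈ K ∨ (v, u) ∈ K) ∧
      F'.IsAcyclic ∧ (∀ v, dg F' v ≤ dg F v + if cov K v then 1 else 0) ∧
      ec F' = ec F + K.card ∧
      (∀ x ∈ X, ∀ y ∈ X, x ≠ y → ¬ cov K x → ¬ F'.Reachable x y) := by
  induction K using Finset.induction_on with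
  | empty =>
    intro _ _
    refine ⟨F, fun u v h => Or.inl h, hF, fun v => by omega, by simp, fun x hx y hy hxy _ =>
      hX x hx y hy hxy⟩
  | insert e K he ih =>
    intro h1 h2
    obtain ⟨F', hA, hB, hC, hD, hE⟩ := ih (fun f hf => h1 f (Finset.mem_insert_of_mem hf))
      (fun f hf g hg => h2 f (Finset.mem_insert_of_mem hf) g (Finset.mem_insert_of_mem hg))
    obtain ⟨hne, hx1, hx2⟩ := h1 e (Finset.mem_insert_self _ _)
    have hnc1 : ¬ cov K e.1 := by
      rintro ⟨f, hf, hh⟩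
      have hef : e ≠ f := fun h => he (h ▸ hf)
      have := h2 e (Finset.mem_insert_self _ _) f (Finset.mem_insert_of_mem hf) hef
      tauto
    have hnc2 : ¬ cov K e.2 := by
      rintro ⟨f, hf, hh⟩
      have hef : e ≠ f := fun h => he (h ▸ hf)
      have := h2 e (Finset.mem_insert_self _ _) f (Finset.mem_insert_of_mem hf) hef
      tauto
    have hnr : ¬ F'.Reachable e.1 e.2 := hE _ hx1 _ hx2 hne hnc1
    refine ⟨F' ⊔ SimpleGraph.edge e.1 e.2, ?_, hB.sup_edge_of_not_reachable hnr, ?_, ?_, ?_⟩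
    · intro u v huv
      rw [SimpleGraph.sup_adj, SimpleGraph.edge_adj] at huv
      rcases huv with h | ⟨⟨rfl, rfl⟩ | ⟨rfl, rfl⟩, _⟩
      · rcases hA u v h with h | h | h
        · exact Or.inl h
        · exact Or.inr (Or.inl (Finset.mem_insert_of_mem h))
        · exact Or.inr (Or.inr (Finset.mem_insert_of_mem h))
      · exact Or.inr (Or.inl (Finset.mem_insert_self _ _))
      · exact Or.inr (Or.inr (Finset.mem_insert_self _ _))
    · intro v
      by_cases hv : v = e.1 ∨ v = e.2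
      · have hcv : cov (insert e K) v := ⟨e, Finset.mem_insert_self _ _, hv⟩
        have hncv : ¬ cov K v := by
          rcases hv with rfl | rfl
          · exact hnc1
          · exact hnc2
        rw [if_pos hcv]
        have hc := hC v
        rw [if_neg hncv] at hc
        obtain ⟨o, ho⟩ : ∃ o : V, ∀ w, (SimpleGraph.edge e.1 e.2).Adj v w → w = o := by
          rcases hv with rfl | rfl
          · refine ⟨e.2, fun w hw => ?_⟩
            rw [SimpleGraph.edge_adj] at hw
            rcases hw with ⟨⟨_, h⟩ | ⟨h, _⟩, _⟩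
            · exact h
            · exact absurd h hne
          · refine ⟨e.1, fun w hw => ?_⟩
            rw [SimpleGraph.edge_adj] at hw
            rcases hw with ⟨⟨h, _⟩ | ⟨_, h⟩, _⟩
            · exact absurd h.symm hne
            · exact h
        have : dg (F' ⊔ SimpleGraph.edge e.1 e.2) v ≤ dg F' v + 1 := by
          unfold dg
          refine (Finset.card_le_card (t := insert o (Finset.univ.filter fun w => F'.Adj v w))
            ?_).trans (Finset.card_insert_le _ _)
          intro w hw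
          simp only [Finset.mem_filter, Finset.mem_univ, true_and, SimpleGraph.sup_adj,
            Finset.mem_insert] at hw ⊢
          rcases hw with h | h
          · exact Or.inr h
          · exact Or.inl (ho w h)
        omega
      · have hdg : dg (F' ⊔ SimpleGraph.edge e.1 e.2) v = dg F' v := by
          unfold dg
          congr 1
          ext w
          simp only [Finset.mem_filter, Finset.mem_univ, true_and, SimpleGraph.sup_adj,
            SimpleGraph.edge_adj]
          constructor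
          · rintro (h | ⟨⟨h, _⟩ | ⟨h, _⟩, _⟩)
            · exact h
            · exact absurd (Or.inl h) hv
            · exact absurd (Or.inr h) hv
          · exact Or.inl
        rw [hdg]
        refine (hC v).trans ?_
        by_cases hc : cov K v
        · have hc' : cov (insert e K) v := by
            obtain ⟨f, hf, h⟩ := hc
            exact ⟨f, Finset.mem_insert_of_mem hf, h⟩
          rw [if_pos hc, if_pos hc']
        · rw [if_neg hc]
          omega
    · have hset : (F' ⊔ SimpleGraph.edge e.1 e.2).edgeSet = insert s(e.1, e.2) F'.edgeSet := by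
        rw [SimpleGraph.edgeSet_sup, SimpleGraph.edgeSet_edge_of_ne hne, Set.union_comm]
        rfl
      have hnm : s(e.1, e.2) ∉ F'.edgeSet := by
        rw [SimpleGraph.mem_edgeSet]
        exact fun h => hnr h.reachable
      unfold ec at hD ⊢
      rw [hset, Set.ncard_insert_of_notMem hnm (Set.toFinite _), hD,
        Finset.card_insert_of_notMem he]
      ring
    · intro x hx y hy hxy hcx hr
      have hcx' : ¬ cov K x := by
        rintro ⟨f, hf, h⟩
        exact hcx ⟨f, Finset.mem_insert_of_mem hf, h⟩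
      have hxe1 : x ≠ e.1 := fun h => hcx ⟨e, Finset.mem_insert_self _ _, Or.inl h⟩
      have hxe2 : x ≠ e.2 := fun h => hcx ⟨e, Finset.mem_insert_self _ _, Or.inr h⟩
      exact hE x hx y hy hxy hcx' (reach_sup F' x e.1 e.2 y (hE x hx _ hx1 hxe1 hcx')
        (hE x hx _ hx2 hxe2 hcx') hr)

/-- two pairs share a vertex -/
def shr {V : Type} (e f : V × V) : Prop := e.1 = f.1 ∨ e.1 = f.2 ∨ e.2 = f.1 ∨ e.2 = f.2

theorem shr_symm {V : Type} {e f : V × V} (h : shr e f) : shr f e := by
  unfold shr at h ⊢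
  tauto

/-- the pairs inside `X` -/
def PX {m : ℕ} (X : Finset (Fin m)) : Finset (Fin m × Fin m) :=
  Finset.univ.filter (fun e => e.1 < e.2 ∧ e.1 ∈ X ∧ e.2 ∈ X)

theorem mem_PX {m : ℕ} (X : Finset (Fin m)) (e : Fin m × Fin m) :
    e ∈ PX X ↔ e.1 < e.2 ∧ e.1 ∈ X ∧ e.2 ∈ X := by simp [PX]

theorem card_PX {m : ℕ} (X : Finset (Fin m)) :
    ((PX X).card : ℝ) = (X.card : ℝ) * ((X.card : ℝ) - 1) / 2 := by
  have h1 : X.offDiag = PX X ∪ (PX X).image Prod.swap := by
    ext e
    simp only [Finset.mem_offDiag, Finset.mem_union, mem_PX, Finset.mem_image, Prod.exists,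
      Prod.swap_prod_mk]
    constructor
    · rintro ⟨ha, hb, hne⟩
      rcases lt_or_gt_of_ne hne with h | h
      · exact Or.inl ⟨h, ha, hb⟩
      · exact Or.inr ⟨e.2, e.1, ⟨h, hb, ha⟩, rfl⟩
    · rintro (⟨h, ha, hb⟩ | ⟨a, b, ⟨h, ha, hb⟩, rfl⟩)
      · exact ⟨ha, hb, h.ne⟩
      · exact ⟨hb, ha, h.ne'⟩
  have h2 : Disjoint (PX X) ((PX X).image Prod.swap) := by
    rw [Finset.disjoint_left]
    intro e he he'
    rw [mem_PX] at he
    simp only [Finset.mem_image, mem_PX, Prod.exists, Prod.swap_prod_mk] at he'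
    obtain ⟨a, b, ⟨h, _, _⟩, rfl⟩ := he'
    exact absurd h (not_lt.2 he.1.le)
  have h3 : (X.offDiag).card = 2 * (PX X).card := by
    rw [h1, Finset.card_union_of_disjoint h2, Finset.card_image_of_injective _ Prod.swap_injective]
    ring
  have h4 : (X.offDiag.card : ℝ) = (X.card : ℝ) * X.card - X.card := by
    rw [Finset.offDiag_card, Nat.cast_sub (Nat.le_mul_self _)]
    push_cast
    ring
  rw [h3] at h4
  push_cast at h4
  linarith

/-- an injective numbering of the pairs -/
def rk {m : ℕ} (e : Fin m × Fin m) : ℕ := (Fintype.equivFin (Fin m × Fin m) e).val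

theorem rk_inj {m : ℕ} {e f : Fin m × Fin m} (h : rk e = rk f) : e = f :=
  (Fintype.equivFin (Fin m × Fin m)).injective (Fin.ext h)

/-- the pairs sharing a vertex with `e` and coming before `e` -/
def bef {m : ℕ} (X : Finset (Fin m)) (e : Fin m × Fin m) : Finset (Fin m × Fin m) :=
  (PX X).filter (fun f => rk f < rk e ∧ shr e f)

theorem card_bef {m : ℕ} (X : Finset (Fin m)) :
    2 * (∑ e ∈ PX X, ((bef X e).card : ℝ)) ≤ (X.card : ℝ) ^ 3 := by
  have h1 : ∑ e ∈ PX X, (bef X e).card =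
      ((PX X ×ˢ PX X).filter (fun z => rk z.2 < rk z.1 ∧ shr z.1 z.2)).card := by
    rw [Finset.card_filter, Finset.sum_product]
    refine Finset.sum_congr rfl fun e _ => ?_
    unfold bef
    rw [Finset.card_filter]
  have h2 : ((PX X ×ˢ PX X).filter (fun z => rk z.2 < rk z.1 ∧ shr z.1 z.2)).card =
      ((PX X ×ˢ PX X).filter (fun z => rk z.1 < rk z.2 ∧ shr z.1 z.2)).card := by
    refine Finset.card_bij (fun z _ => z.swap) ?_ ?_ ?_
    · rintro ⟨a, b⟩ h
      simp only [Finset.mem_filter, Finset.mem_product, Prod.swap_prod_mk] at h ⊢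
      exact ⟨⟨h.1.2, h.1.1⟩, h.2.1, shr_symm h.2.2⟩
    · intro a _ b _ h
      exact Prod.swap_injective h
    · rintro ⟨a, b⟩ h
      simp only [Finset.mem_filter, Finset.mem_product] at h
      refine ⟨⟨b, a⟩, ?_, rfl⟩
      simp only [Finset.mem_filter, Finset.mem_product]
      exact ⟨⟨h.1.2, h.1.1⟩, h.2.1, shr_symm h.2.2⟩
  have h3 : Disjoint ((PX X ×ˢ PX X).filter (fun z => rk z.2 < rk z.1 ∧ shr z.1 z.2))
      ((PX X ×ˢ PX X).filter (fun z => rk z.1 < rk z.2 ∧ shr z.1 z.2)) := by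
    rw [Finset.disjoint_left]
    intro z hz hz'
    simp only [Finset.mem_filter] at hz hz'
    omega
  have h4 : ((PX X ×ˢ PX X).filter (fun z => rk z.2 < rk z.1 ∧ shr z.1 z.2)) ∪
      ((PX X ×ˢ PX X).filter (fun z => rk z.1 < rk z.2 ∧ shr z.1 z.2)) ⊆
      (X ×ˢ X ×ˢ X).image (fun t => ((min t.1 t.2.1, max t.1 t.2.1),
        (min t.1 t.2.2, max t.1 t.2.2))) := by
    intro z hz
    have hz' : (z.1 ∈ PX X ∧ z.2 ∈ PX X) ∧ shr z.1 z.2 := by
      simp only [Finset.mem_union, Finset.mem_filter, Finset.mem_product] at hz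
      tauto
    obtain ⟨⟨a, b⟩, ⟨c, d⟩⟩ := z
    obtain ⟨⟨h1, h2⟩, h3⟩ := hz'
    rw [mem_PX] at h1 h2
    simp only at h1 h2 h3
    simp only [Finset.mem_image, Finset.mem_product, Prod.exists, Prod.mk.injEq]
    rcases h3 with h | h | h | h
    · simp only at h
      subst h
      exact ⟨a, b, d, ⟨h1.2.1, h1.2.2, h2.2.2⟩, ⟨min_eq_left h1.1.le, max_eq_right h1.1.le⟩,
        min_eq_left h2.1.le, max_eq_right h2.1.le⟩
    · simp only at h
      subst h
      exact ⟨a, b, c, ⟨h1.2.1, h1.2.2, h2.2.1⟩, ⟨min_eq_left h1.1.le, max_eq_right h1.1.le⟩,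
        min_eq_right h2.1.le, max_eq_left h2.1.le⟩
    · simp only at h
      subst h
      exact ⟨b, a, d, ⟨h1.2.2, h1.2.1, h2.2.2⟩, ⟨min_eq_right h1.1.le, max_eq_left h1.1.le⟩,
        min_eq_left h2.1.le, max_eq_right h2.1.le⟩
    · simp only at h
      subst h
      exact ⟨b, a, c, ⟨h1.2.2, h1.2.1, h2.2.1⟩, ⟨min_eq_right h1.1.le, max_eq_left h1.1.le⟩,
        min_eq_right h2.1.le, max_eq_left h2.1.le⟩
  have h5 := (Finset.card_le_card h4).trans Finset.card_image_le
  rw [Finset.card_union_of_disjoint h3, ← h2, ← h1, Finset.card_product,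
    Finset.card_product] at h5
  have h6 : ((∑ e ∈ PX X, (bef X e).card + ∑ e ∈ PX X, (bef X e).card : ℕ) : ℝ) ≤
      ((X.card * (X.card * X.card) : ℕ) : ℝ) := by exact_mod_cast h5
  push_cast at h6
  linarith

theorem inf_edge_ec {m : ℕ} (Q H : SimpleGraph (Fin m)) :
    (0 : ℝ) ^ (ec (H ⊓ Q)) = if H ⊓ Q = ⊥ then 1 else 0 := by
  by_cases h : H ⊓ Q = ⊥
  · rw [if_pos h, h]
    simp [ec]
  · rw [if_neg h]
    refine zero_pow ?_
    intro h0
    apply h
    unfold ec at h0
    rw [Set.ncard_eq_zero (Set.toFinite _), SimpleGraph.edgeSet_eq_empty] at h0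
    exact h0

theorem edge_inf_bot {m : ℕ} (Q : SimpleGraph (Fin m)) (a b : Fin m) (hab : a ≠ b) :
    SimpleGraph.edge a b ⊓ Q = ⊥ ↔ ¬ Q.Adj a b := by
  constructor
  · intro h hQ
    have : (SimpleGraph.edge a b ⊓ Q).Adj a b := by
      rw [SimpleGraph.inf_adj, SimpleGraph.edge_adj]
      exact ⟨⟨Or.inl ⟨rfl, rfl⟩, hab⟩, hQ⟩
    rw [h] at this
    exact this
  · intro h
    ext u v
    rw [SimpleGraph.inf_adj, SimpleGraph.edge_adj]
    simp only [SimpleGraph.bot_adj, iff_false]
    rintro ⟨⟨⟨rfl, rfl⟩ | ⟨rfl, rfl⟩, _⟩, hQ⟩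
    · exact h hQ
    · exact h hQ.symm

/-- indicator of an edge -/
def one {m : ℕ} (Q : SimpleGraph (Fin m)) (e : Fin m × Fin m) : ℝ :=
  if Q.Adj e.1 e.2 then 1 else 0

theorem one_eq {m : ℕ} (Q : SimpleGraph (Fin m)) (e : Fin m × Fin m) (he : e.1 ≠ e.2) :
    one Q e = 1 - (0 : ℝ) ^ (ec (SimpleGraph.edge e.1 e.2 ⊓ Q)) := by
  rw [inf_edge_ec]
  simp only [edge_inf_bot Q e.1 e.2 he]
  unfold one
  split_ifs <;> simp_all

theorem one_mul_one {m : ℕ} (Q : SimpleGraph (Fin m)) (e f : Fin m × Fin m) (he : e.1 ≠ e.2)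
    (hf : f.1 ≠ f.2) :
    one Q e * one Q f = 1 - (0 : ℝ) ^ (ec (SimpleGraph.edge e.1 e.2 ⊓ Q))
      - (0 : ℝ) ^ (ec (SimpleGraph.edge f.1 f.2 ⊓ Q))
      + (0 : ℝ) ^ (ec ((SimpleGraph.edge e.1 e.2 ⊔ SimpleGraph.edge f.1 f.2) ⊓ Q)) := by
  rw [inf_edge_ec, inf_edge_ec, inf_edge_ec]
  have h3 : (SimpleGraph.edge e.1 e.2 ⊔ SimpleGraph.edge f.1 f.2) ⊓ Q = ⊥ ↔
      ¬ Q.Adj e.1 e.2 ∧ ¬ Q.Adj f.1 f.2 := by
    rw [inf_sup_right, sup_eq_bot_iff, edge_inf_bot Q e.1 e.2 he, edge_inf_bot Q f.1 f.2 hf]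
  simp only [edge_inf_bot Q e.1 e.2 he, edge_inf_bot Q f.1 f.2 hf, h3]
  unfold one
  split_ifs <;> simp_all

theorem EG_one_eq (hg : S_GENF) (m : ℕ) (q : ℝ) (e : Fin m × Fin m) (he : e.1 ≠ e.2) :
    EG m q (fun Q => one Q e) = q := by
  rw [EG_congr (fun Q => one_eq Q e he), EG_sub, EG_const oneT, hg]
  have : ec (SimpleGraph.edge e.1 e.2) = 1 := by
    unfold ec
    rw [SimpleGraph.edgeSet_edge_of_ne he, Set.ncard_singleton]
  rw [this]
  ring

theorem EG_two_eq (hg : S_GENF) (m : ℕ) (q : ℝ) (e f : Fin m × Fin m) (he : e.1 < e.2)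
    (hf : f.1 < f.2) (hef : e ≠ f) :
    EG m q (fun Q => one Q e * one Q f) = q ^ 2 := by
  rw [EG_congr (fun Q => one_mul_one Q e f he.ne hf.ne), EG_add, EG_sub, EG_sub, EG_const oneT,
    hg, hg, hg]
  have h1 : ec (SimpleGraph.edge e.1 e.2) = 1 := by
    unfold ec
    rw [SimpleGraph.edgeSet_edge_of_ne he.ne, Set.ncard_singleton]
  have h2 : ec (SimpleGraph.edge f.1 f.2) = 1 := by
    unfold ec
    rw [SimpleGraph.edgeSet_edge_of_ne hf.ne, Set.ncard_singleton]
  have h3 : ec (SimpleGraph.edge e.1 e.2 ⊔ SimpleGraph.edge f.1 f.2) = 2 := by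
    unfold ec
    rw [SimpleGraph.edgeSet_sup, SimpleGraph.edgeSet_edge_of_ne he.ne,
      SimpleGraph.edgeSet_edge_of_ne hf.ne, Set.singleton_union, Set.ncard_pair]
    intro h
    rw [Sym2.eq_iff] at h
    rcases h with ⟨h1, h2⟩ | ⟨h1, h2⟩
    · exact hef (Prod.ext h1 h2)
    · rw [h1, h2] at he
      exact absurd he (not_lt.2 hf.le)
  rw [h1, h2, h3]
  ring

theorem gain : S_LAM → S_FC → S_GENF → S_GAIN := by
  intro hL hFC hG m q G hq0 hq1
  obtain ⟨F, hFG, hLF, hFe⟩ := hL.1 (Fin m) G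
  have hcomp := hFC (Fin m) F hLF.1
  rw [hFe, Fintype.card_fin] at hcomp
  choose f hf1 hf2 using exists_end F hLF.1
  have hfinj : Function.Injective f := by
    intro c c' h
    rw [← hf1 c, ← hf1 c', h]
  have : Fintype F.ConnectedComponent := Fintype.ofFinite _
  set X : Finset (Fin m) := Finset.univ.image f with hXdef
  have hXcard : X.card = Nat.card F.ConnectedComponent := by
    rw [hXdef, Finset.card_image_of_injective _ hfinj, Finset.card_univ, Nat.card_eq_fintype_card]
  have hXr : ∀ x ∈ X, ∀ y ∈ X, x ≠ y → ¬ F.Reachable x y := by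
    intro x hx y hy hxy hr
    simp only [hXdef, Finset.mem_image, Finset.mem_univ, true_and] at hx hy
    obtain ⟨c, rfl⟩ := hx
    obtain ⟨c', rfl⟩ := hy
    apply hxy
    have : c = c' := by
      rw [← hf1 c, ← hf1 c']
      exact SimpleGraph.ConnectedComponent.sound hr
    rw [this]
  have hXd : ∀ x ∈ X, dg F x ≤ 1 := by
    intro x hx
    simp only [hXdef, Finset.mem_image, Finset.mem_univ, true_and] at hx
    obtain ⟨c, rfl⟩ := hx
    exact hf2 c
  have hmu : (m : ℝ) - lam G = X.card := by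
    rw [hXcard]
    have : ((lam G + Nat.card F.ConnectedComponent : ℕ) : ℝ) = (m : ℝ) := by
      rw [hcomp]
    push_cast at this
    linarith
  -- the deterministic bound
  have hdet : ∀ Q : SimpleGraph (Fin m), (lam G : ℝ) +
      ∑ e ∈ PX X, (one Q e - ∑ g ∈ bef X e, one Q e * one Q g) ≤ (lam (G ⊔ Q) : ℝ) := by
    intro Q
    set K : Finset (Fin m × Fin m) := (PX X).filter (fun e => Q.Adj e.1 e.2 ∧
      ∀ g ∈ bef X e, ¬ Q.Adj g.1 g.2) with hKdef
    have hK1 : ∀ e ∈ K, e.1 ≠ e.2 ∧ e.1 ∈ X ∧ e.2 ∈ X := by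
      intro e he
      simp only [hKdef, Finset.mem_filter, mem_PX] at he
      exact ⟨he.1.1.ne, he.1.2⟩
    have hK2 : ∀ e ∈ K, ∀ g ∈ K, e ≠ g → ¬ shr e g := by
      have aux : ∀ e ∈ K, ∀ g ∈ K, rk g < rk e → ¬ shr e g := by
        intro e he g hg hr hs
        simp only [hKdef, Finset.mem_filter] at he hg
        exact he.2.2 g (by simp only [bef, Finset.mem_filter]; exact ⟨hg.1, hr, hs⟩) hg.2.1
      intro e he g hg hne hs
      rcases lt_trichotomy (rk g) (rk e) with h | h | h
      · exact aux e he g hg h hs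
      · exact hne (rk_inj h).symm
      · exact aux g hg e he h (shr_symm hs)
    obtain ⟨F', hA, hB, hC, hD, _⟩ := add_matching F hLF.1 X hXr K hK1 (by
      intro e he g hg hne
      have := hK2 e he g hg hne
      unfold shr at this
      tauto)
    have hle : F' ≤ G ⊔ Q := by
      intro u v huv
      rw [SimpleGraph.sup_adj]
      rcases hA u v huv with h | h | h
      · exact Or.inl (hFG h)
      · simp only [hKdef, Finset.mem_filter] at h
        exact Or.inr h.2.1
      · simp only [hKdef, Finset.mem_filter] at h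
        exact Or.inr h.2.1.symm
    have hIs : IsLF F' := by
      refine ⟨hB, fun v => ?_⟩
      have h := hC v
      by_cases hc : cov K v
      · rw [if_pos hc] at h
        obtain ⟨e, he, hv⟩ := hc
        have hvX : v ∈ X := by
          rcases hv with rfl | rfl
          · exact (hK1 e he).2.1
          · exact (hK1 e he).2.2
        have := hXd v hvX
        omega
      · rw [if_neg hc] at h
        have := hLF.2 v
        omega
    have hlam : lam G + K.card ≤ lam (G ⊔ Q) := by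
      rw [← hFe, ← hD]
      exact hL.2.1 (Fin m) (G ⊔ Q) F' hle hIs
    have hlam' : (lam G : ℝ) + K.card ≤ (lam (G ⊔ Q) : ℝ) := by exact_mod_cast hlam
    refine le_trans ?_ hlam'
    have hKc : (K.card : ℝ) = ∑ e ∈ PX X, if (Q.Adj e.1 e.2 ∧
        ∀ g ∈ bef X e, ¬ Q.Adj g.1 g.2) then (1 : ℝ) else 0 := by
      rw [hKdef, Finset.card_filter]
      push_cast
      rfl
    rw [hKc]
    have hnn : ∀ (e g : Fin m × Fin m), 0 ≤ one Q e * one Q g := by
      intro e g
      unfold one
      split_ifs <;> norm_num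
    refine add_le_add le_rfl (Finset.sum_le_sum fun e _ => ?_)
    by_cases hadj : Q.Adj e.1 e.2
    · have h1 : one Q e = 1 := if_pos hadj
      by_cases hall : ∀ g ∈ bef X e, ¬ Q.Adj g.1 g.2
      · rw [if_pos ⟨hadj, hall⟩, h1]
        have : 0 ≤ ∑ g ∈ bef X e, 1 * one Q g := by
          refine Finset.sum_nonneg fun g _ => ?_
          have := hnn e g
          rwa [h1] at this
        linarith
      · rw [if_neg (fun h => hall h.2), h1]
        push Not at hall
        obtain ⟨g, hg, hgQ⟩ := hall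
        have h2 : (1 : ℝ) * one Q g ≤ ∑ g ∈ bef X e, 1 * one Q g := by
          refine Finset.single_le_sum (f := fun g => 1 * one Q g) (fun g _ => ?_) hg
          have := hnn e g
          rwa [h1] at this
        have h3 : one Q g = 1 := if_pos hgQ
        rw [h3] at h2
        linarith
    · have h1 : one Q e = 0 := if_neg hadj
      rw [if_neg (fun h => hadj h.1), h1]
      simp
  refine le_trans ?_ (EG_mono hq0 hq1 hdet)
  rw [EG_add, EG_const oneT, EG_sum]
  have hexp : ∀ e ∈ PX X, EG m q (fun Q => one Q e - ∑ g ∈ bef X e, one Q e * one Q g) =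
      q - ((bef X e).card : ℝ) * q ^ 2 := by
    intro e he
    rw [mem_PX] at he
    rw [EG_sub, EG_one_eq hG m q e he.1.ne, EG_sum]
    congr 1
    rw [Finset.sum_congr rfl (fun g hg => ?_), Finset.sum_const, nsmul_eq_mul]
    simp only [bef, Finset.mem_filter, mem_PX] at hg
    refine EG_two_eq hG m q e g he.1 hg.1.1 ?_
    rintro rfl
    exact lt_irrefl _ hg.2.1
  rw [Finset.sum_congr rfl hexp, Finset.sum_sub_distrib, Finset.sum_const, nsmul_eq_mul,
    ← Finset.sum_mul, card_PX, hmu]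
  have hb := card_bef X
  have hq2 : 0 ≤ q ^ 2 := sq_nonneg q
  nlinarith [mul_le_mul_of_nonneg_right hb hq2]

end

end Pool.Agent.W817.HC
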